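import Mathlib

/-! Contravariant functors from finite nonempty sets to modules, norms, undistorted maps. -/

namespace Pool.Agent.MP_6fd87c_lc.H38

/-- Finite nonempty types. -/
class Fn (S : Type) : Prop where
  fin : Finite S
  ne : Nonempty S

instance (S : Type) [h : Fn S] : Finite S := h.fin
instance (S : Type) [h : Fn S] : Nonempty S := h.ne
instance (S : Type) [Finite S] : Fn (Option S) := ⟨inferInstance, ⟨none⟩⟩
instance (S U : Type) [Fn S] [Finite U] : Fn (S ⊕ U) := ⟨inferInstance, inferInstance⟩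
instance (n : ℕ) : Fn (Fin (n + 1)) := ⟨inferInstance, inferInstance⟩
instance : Fn Unit := ⟨inferInstance, inferInstance⟩

/-- A contravariant functor from finite nonempty sets (all maps) to `R`-modules. -/
structure Mod (R : Type) [CommRing R] : Type 1 where
  obj : (S : Type) → [Fn S] → Type
  [acg : ∀ (S : Type) [Fn S], AddCommGroup (obj S)]
  [mod : ∀ (S : Type) [Fn S], Module R (obj S)]
  map : ∀ {S T : Type} [Fn S] [Fn T], (T → S) → obj S →ₗ[R] obj T
  map_id : ∀ (S : Type) [Fn S] (x : obj S), map id x = x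
  map_comp : ∀ {S T U : Type} [Fn S] [Fn T] [Fn U] (σ : T → S) (τ : U → T) (x : obj S),
    map τ (map σ x) = map (σ ∘ τ) x

attribute [instance] Mod.acg Mod.mod

variable {R : Type} [CommRing R]

/-- Natural transformations. -/
structure Hom (M N : Mod R) : Type 1 where
  app : ∀ (S : Type) [Fn S], M.obj S →ₗ[R] N.obj S
  nat : ∀ {S T : Type} [Fn S] [Fn T] (σ : T → S) (x : M.obj S),
    app T (M.map σ x) = N.map σ (app S x)

/-- Subfunctors. -/
@[ext] structure Sub (M : Mod R) : Type 1 where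
  s : ∀ (S : Type) [Fn S], Submodule R (M.obj S)
  map_mem : ∀ {S T : Type} [Fn S] [Fn T] (σ : T → S) {x : M.obj S}, x ∈ s S → M.map σ x ∈ s T

instance (M : Mod R) : PartialOrder (Sub M) where
  le N N' := ∀ (S : Type) [Fn S], N.s S ≤ N'.s S
  le_refl _ _ _ := le_rfl
  le_trans _ _ _ h h' S _ := (h S).trans (h' S)
  le_antisymm N N' h h' := by
    ext S _ x
    exact ⟨fun hx => h S hx, fun hx => h' S hx⟩

lemma Sub.le_def {M : Mod R} {N N' : Sub M} :
    N ≤ N' ↔ ∀ (S : Type) [Fn S], N.s S ≤ N'.s S := Iff.rfl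

/-- The identity. -/
def Hom.id (M : Mod R) : Hom M M := ⟨fun _ _ => LinearMap.id, fun _ _ => rfl⟩

/-- Composition. -/
def Hom.comp {L M N : Mod R} (ψ : Hom M N) (φ : Hom L M) : Hom L N :=
  ⟨fun S _ => (ψ.app S).comp (φ.app S), fun σ x => by
    simp only [LinearMap.comp_apply, φ.nat, ψ.nat]⟩

/-- Difference. -/
def Hom.sub {M N : Mod R} (φ ψ : Hom M N) : Hom M N :=
  ⟨fun S _ => φ.app S - ψ.app S, fun σ x => by
    simp only [LinearMap.sub_apply, φ.nat, ψ.nat, map_sub]⟩

/-- The zero map. -/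
def Hom.zero (M N : Mod R) : Hom M N := ⟨fun _ _ => 0, fun σ x => by simp⟩

@[simp] lemma Hom.id_app (M : Mod R) (S : Type) [Fn S] (x : M.obj S) :
    (Hom.id M).app S x = x := rfl
@[simp] lemma Hom.comp_app {L M N : Mod R} (ψ : Hom M N) (φ : Hom L M) (S : Type) [Fn S]
    (x : L.obj S) : (ψ.comp φ).app S x = ψ.app S (φ.app S x) := rfl
@[simp] lemma Hom.sub_app {M N : Mod R} (φ ψ : Hom M N) (S : Type) [Fn S] (x : M.obj S) :
    (φ.sub ψ).app S x = φ.app S x - ψ.app S x := rfl
@[simp] lemma Hom.zero_app (M N : Mod R) (S : Type) [Fn S] (x : M.obj S) :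
    (Hom.zero M N).app S x = 0 := rfl

/-- A subfunctor as a functor. -/
abbrev Sub.toMod {M : Mod R} (N : Sub M) : Mod R where
  obj S _ := N.s S
  map σ := (M.map σ).restrict fun _ hx => N.map_mem σ hx
  map_id S _ x := Subtype.ext (M.map_id S x)
  map_comp σ τ x := Subtype.ext (M.map_comp σ τ x)

/-- The inclusion of a subfunctor. -/
def Sub.incl {M : Mod R} (N : Sub M) : Hom N.toMod M := ⟨fun S _ => (N.s S).subtype, fun _ _ => rfl⟩

@[simp] lemma Sub.incl_app {M : Mod R} (N : Sub M) (S : Type) [Fn S] (x : N.s S) :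
    N.incl.app S x = x.1 := rfl

@[simp] lemma Sub.toMod_map_val {M : Mod R} (N : Sub M) {S T : Type} [Fn S] [Fn T] (σ : T → S)
    (x : N.s S) : (N.toMod.map σ x).1 = M.map σ x.1 := rfl

/-- The quotient by a subfunctor. -/
abbrev Sub.quot {M : Mod R} (N : Sub M) : Mod R where
  obj S _ := M.obj S ⧸ N.s S
  map {S T} _ _ σ := Submodule.mapQ (N.s S) (N.s T) (M.map σ) fun _ hx => N.map_mem σ hx
  map_id S _ x := by
    induction x using Submodule.Quotient.induction_on with
    | H x => rw [Submodule.mapQ_apply, M.map_id]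
  map_comp σ τ x := by
    induction x using Submodule.Quotient.induction_on with
    | H x => simp only [Submodule.mapQ_apply, M.map_comp]

/-- The projection to the quotient. -/
def Sub.mkQ {M : Mod R} (N : Sub M) : Hom M N.quot := ⟨fun S _ => (N.s S).mkQ, fun _ _ => rfl⟩

lemma Sub.mkQ_surj {M : Mod R} (N : Sub M) (S : Type) [Fn S] :
    Function.Surjective (N.mkQ.app S) := (N.s S).mkQ_surjective

lemma Sub.mkQ_eq_zero {M : Mod R} (N : Sub M) (S : Type) [Fn S] (x : M.obj S) :
    N.mkQ.app S x = 0 ↔ x ∈ N.s S := Submodule.Quotient.mk_eq_zero _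

/-- Preimage of a subfunctor. -/
def Sub.comap {M N : Mod R} (K : Sub N) (φ : Hom M N) : Sub M :=
  ⟨fun S _ => (K.s S).comap (φ.app S), fun σ x hx => by
    rw [Submodule.mem_comap, φ.nat]; exact K.map_mem σ hx⟩

@[simp] lemma Sub.mem_comap {M N : Mod R} (K : Sub N) (φ : Hom M N) (S : Type) [Fn S]
    (x : M.obj S) : x ∈ (K.comap φ).s S ↔ φ.app S x ∈ K.s S := Iff.rfl

/-- Kernel. -/
def Hom.ker {M N : Mod R} (φ : Hom M N) : Sub M :=
  ⟨fun S _ => LinearMap.ker (φ.app S), fun σ x hx => by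
    rw [LinearMap.mem_ker] at hx ⊢; rw [φ.nat, hx, map_zero]⟩

@[simp] lemma Hom.mem_ker {M N : Mod R} (φ : Hom M N) (S : Type) [Fn S] (x : M.obj S) :
    x ∈ φ.ker.s S ↔ φ.app S x = 0 := Iff.rfl

/-- Range. -/
def Hom.range {M N : Mod R} (φ : Hom M N) : Sub N :=
  ⟨fun S _ => LinearMap.range (φ.app S), by
    rintro S T _ _ σ _ ⟨x, rfl⟩
    exact ⟨_, φ.nat σ x⟩⟩

@[simp] lemma Hom.mem_range {M N : Mod R} (φ : Hom M N) (S : Type) [Fn S] (y : N.obj S) :
    y ∈ φ.range.s S ↔ ∃ x, φ.app S x = y := Iff.rfl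

/-- Corestriction to a subfunctor. -/
def Hom.cod {M N : Mod R} (φ : Hom M N) (K : Sub N)
    (h : ∀ (S : Type) [Fn S] (x : M.obj S), φ.app S x ∈ K.s S) : Hom M K.toMod :=
  ⟨fun S _ => (φ.app S).codRestrict (K.s S) (h S), fun σ x => Subtype.ext (φ.nat σ x)⟩

@[simp] lemma Hom.cod_app_val {M N : Mod R} (φ : Hom M N) (K : Sub N) (h) (S : Type) [Fn S]
    (x : M.obj S) : ((φ.cod K h).app S x).1 = φ.app S x := rfl

/-- Sum of subfunctors. -/
def Sub.sup {M : Mod R} (K L : Sub M) : Sub M :=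
  ⟨fun S _ => K.s S ⊔ L.s S, fun σ x hx => by
    obtain ⟨y, hy, z, hz, rfl⟩ := Submodule.mem_sup.1 hx
    rw [map_add]
    exact Submodule.add_mem_sup (K.map_mem σ hy) (L.map_mem σ hz)⟩

/-- Intersection of subfunctors. -/
def Sub.inf {M : Mod R} (K L : Sub M) : Sub M :=
  ⟨fun S _ => K.s S ⊓ L.s S, fun σ _ hx => ⟨K.map_mem σ hx.1, L.map_mem σ hx.2⟩⟩

/-- Binary product. -/
abbrev Mod.prod (M N : Mod R) : Mod R where
  obj S _ := M.obj S × N.obj S
  map σ := (M.map σ).prodMap (N.map σ)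
  map_id S _ x := Prod.ext (M.map_id S x.1) (N.map_id S x.2)
  map_comp σ τ x := Prod.ext (M.map_comp σ τ x.1) (N.map_comp σ τ x.2)

/-- The shift by a finite set `U`. -/
abbrev Mod.shift (M : Mod R) (U : Type) [Finite U] : Mod R where
  obj S _ := M.obj (S ⊕ U)
  map σ := M.map (Sum.map σ id)
  map_id S _ x := by rw [Sum.map_id_id, M.map_id]
  map_comp σ τ x := by rw [M.map_comp, Sum.map_comp_map]; rfl

/-- The shift of a natural transformation. -/
def Hom.shift {M N : Mod R} (φ : Hom M N) (U : Type) [Finite U] :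
    Hom (M.shift U) (N.shift U) := ⟨fun S _ => φ.app (S ⊕ U), fun _ x => φ.nat _ x⟩

/-- The free functor on generators indexed by `ι`, all in degree `A`. -/
noncomputable abbrev Fr (R : Type) [CommRing R] (ι A : Type) : Mod R where
  obj S _ := (ι × (S → A)) →₀ R
  map σ := Finsupp.lmapDomain R R fun p => (p.1, p.2 ∘ σ)
  map_id _ _ _ := Finsupp.mapDomain_id
  map_comp _ _ _ := (Finsupp.mapDomain_comp).symm

lemma Fr_map_single {ι A S T : Type} [Fn S] [Fn T] (σ : T → S) (p : ι × (S → A)) (c : R) :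
    (Fr R ι A).map σ (Finsupp.single p c) = Finsupp.single (p.1, p.2 ∘ σ) c :=
  Finsupp.mapDomain_single

/-- The natural transformation from a free functor given by elements in degree `A`. -/
noncomputable def Fr.lift {ι A : Type} [Fn A] {M : Mod R} (u : ι → M.obj A) : Hom (Fr R ι A) M where
  app S _ := Finsupp.linearCombination R fun p : ι × (S → A) => M.map p.2 (u p.1)
  nat σ x := by
    induction x using Finsupp.induction_linear with
    | zero => simp only [map_zero]
    | add x y hx hy => simp only [map_add, hx, hy]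
    | single p c =>
      rw [Fr_map_single]
      simp only [Finsupp.linearCombination_single, map_smul, M.map_comp]

lemma Fr.lift_single {ι A : Type} [Fn A] {M : Mod R} (u : ι → M.obj A) (S : Type) [Fn S]
    (p : ι × (S → A)) (c : R) :
    (Fr.lift u).app S (Finsupp.single p c) = c • M.map p.2 (u p.1) :=
  Finsupp.linearCombination_single _ _ _

/-- `x` comes from a set with `t + 1` elements. -/
def Small (M : Mod R) (t : ℕ) {S : Type} [Fn S] (x : M.obj S) : Prop :=
  ∃ (σ : S → Fin (t + 1)) (y : M.obj (Fin (t + 1))), x = M.map σ y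

/-- `x` is a sum of at most `n` elements that are `t`-small. -/
inductive Nm (M : Mod R) (t : ℕ) {S : Type} [Fn S] : ℕ → M.obj S → Prop
  | zero (n : ℕ) : Nm M t n 0
  | add {n : ℕ} {x y : M.obj S} : Small M t x → Nm M t n y → Nm M t (n + 1) (x + y)

/-- Finite values and generated in bounded degree. -/
def FG (M : Mod R) : Prop :=
  (∀ (S : Type) [Fn S], Finite (M.obj S)) ∧
    ∃ t, ∀ (S : Type) [Fn S] (x : M.obj S), ∃ n, Nm M t n x

/-- Polynomially undistorted maps. -/
def Und {N E : Mod R} (i : Hom N E) : Prop :=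
  ∀ t, ∃ t' d : ℕ, ∀ (S : Type) [Fn S] (n : ℕ) (x : N.obj S),
    Nm E t n (i.app S x) → Nm N t' ((Nat.card S + 1) ^ d * n) x

/-- Projective functors. -/
def Proj (F : Mod R) : Prop :=
  ∀ (E M : Mod R) (φ : Hom E M) (ψ : Hom F M),
    (∀ (S : Type) [Fn S] (x : F.obj S), ∃ y, φ.app S y = ψ.app S x) →
    ∃ l : Hom F E, ∀ (S : Type) [Fn S] (x : F.obj S), φ.app S (l.app S x) = ψ.app S x

/-- Short exact sequences. -/
structure SES {N E M : Mod R} (i : Hom N E) (φ : Hom E M) : Prop where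
  inj : ∀ (S : Type) [Fn S], Function.Injective (i.app S)
  surj : ∀ (S : Type) [Fn S], Function.Surjective (φ.app S)
  exact : ∀ (S : Type) [Fn S] (x : E.obj S), φ.app S x = 0 ↔ ∃ y, i.app S y = x

/-- Projective resolutions of length `r` with undistorted syzygies. -/
def Good : ℕ → Mod R → Prop
  | 0, _ => True
  | r + 1, M => ∃ (F N : Mod R) (i : Hom N F) (π : Hom F M),
      Proj F ∧ FG F ∧ SES i π ∧ Und i ∧ Good r N

/-- `Good r` for all `r`. -/
def GoodInf (M : Mod R) : Prop := ∀ r, Good r M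

section API

variable {M M' : Mod R} {S T : Type} [Fn S] [Fn T] {t n : ℕ}

lemma small_map_of_card {B : Type} [Fn B] (hB : Nat.card B ≤ t + 1) (σ : S → B) (y : M.obj B) :
    Small M t (M.map σ y) := by
  classical
  have : Fintype B := Fintype.ofFinite B
  obtain ⟨s⟩ : Nonempty (B ↪ Fin (t + 1)) :=
    Function.Embedding.nonempty_of_card_le (by simpa [Nat.card_eq_fintype_card] using hB)
  refine ⟨s ∘ σ, M.map (Function.invFun s) y, ?_⟩
  rw [M.map_comp]
  congr 2
  funext a
  exact (Function.leftInverse_invFun s.injective (σ a)).symm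

lemma small_of_card (hS : Nat.card S ≤ t + 1) (x : M.obj S) : Small M t x := by
  simpa only [M.map_id] using small_map_of_card (M := M) hS id x

lemma Small.mono {t' : ℕ} {x : M.obj S} (h : Small M t x) (ht : t ≤ t') : Small M t' x := by
  obtain ⟨σ, y, rfl⟩ := h
  exact small_map_of_card (by simpa using ht) σ y

lemma Small.map {x : M.obj S} (h : Small M t x) (σ : T → S) : Small M t (M.map σ x) := by
  obtain ⟨τ, y, rfl⟩ := h
  exact ⟨τ ∘ σ, y, M.map_comp _ _ _⟩

lemma Small.hom {x : M.obj S} (h : Small M t x) (φ : Hom M M') : Small M' t (φ.app S x) := by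
  obtain ⟨τ, y, rfl⟩ := h
  exact ⟨τ, _, φ.nat _ _⟩

lemma Small.smul {x : M.obj S} (h : Small M t x) (c : R) : Small M t (c • x) := by
  obtain ⟨τ, y, rfl⟩ := h
  exact ⟨τ, c • y, (map_smul _ _ _).symm⟩

lemma small_zero : Small M t (0 : M.obj S) := ⟨fun _ => 0, 0, (map_zero _).symm⟩

lemma Small.nm {x : M.obj S} (h : Small M t x) : Nm M t 1 x := by
  simpa using Nm.add h (Nm.zero 0)

lemma Nm.succ {x : M.obj S} (h : Nm M t n x) : Nm M t (n + 1) x := by
  simpa using Nm.add small_zero h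

lemma Nm.mono {n' : ℕ} {x : M.obj S} (h : Nm M t n x) (hn : n ≤ n') : Nm M t n' x := by
  induction hn with
  | refl => exact h
  | step _ ih => exact ih.succ

lemma Nm.mono_t {t' : ℕ} {x : M.obj S} (h : Nm M t n x) (ht : t ≤ t') : Nm M t' n x := by
  induction h with
  | zero n => exact Nm.zero n
  | add h1 _ ih => exact Nm.add (h1.mono ht) ih

lemma Nm.plus {n' : ℕ} {x y : M.obj S} (h : Nm M t n x) (h' : Nm M t n' y) :
    Nm M t (n + n') (x + y) := by
  induction h with
  | zero n => simpa using h'.mono (Nat.le_add_left _ _)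
  | add h1 _ ih =>
    rw [Nat.add_right_comm, add_assoc _ _ y]
    exact Nm.add h1 ih

/-- Additive maps that send small elements to elements of norm `c` multiply norms by `c`. -/
lemma Nm.bind {t' c : ℕ} {x : M.obj S} (h : Nm M t n x) (f : M.obj S →+ M'.obj T)
    (hf : ∀ y, Small M t y → Nm M' t' c (f y)) : Nm M' t' (n * c) (f x) := by
  induction h with
  | zero n => rw [map_zero]; exact Nm.zero _
  | add h1 _ ih =>
    rw [map_add, Nat.succ_mul, Nat.add_comm]
    exact (hf _ h1).plus ih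

lemma Nm.add_map {t' : ℕ} {x : M.obj S} (h : Nm M t n x) (f : M.obj S →+ M'.obj T)
    (hf : ∀ y, Small M t y → Small M' t' (f y)) : Nm M' t' n (f x) := by
  simpa using h.bind f fun y hy => (hf y hy).nm

lemma Nm.hom {x : M.obj S} (h : Nm M t n x) (φ : Hom M M') : Nm M' t n (φ.app S x) :=
  h.add_map (φ.app S).toAddMonoidHom fun _ hy => hy.hom φ

lemma Nm.map {x : M.obj S} (h : Nm M t n x) (σ : T → S) : Nm M t n (M.map σ x) :=
  h.add_map (M.map σ).toAddMonoidHom fun _ hy => hy.map σ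

lemma Nm.smul {x : M.obj S} (h : Nm M t n x) (c : R) : Nm M t n (c • x) :=
  h.add_map (DistribSMul.toAddMonoidHom _ c) fun _ hy => hy.smul c

lemma Nm.neg {x : M.obj S} (h : Nm M t n x) : Nm M t n (-x) := by
  simpa using h.smul (-1)

lemma Nm.minus {n' : ℕ} {x y : M.obj S} (h : Nm M t n x) (h' : Nm M t n' y) :
    Nm M t (n + n') (x - y) := by
  rw [sub_eq_add_neg]; exact h.plus h'.neg

lemma Nm.sum {J : Type} (s : Finset J) (x : J → M.obj S) (c : J → ℕ)
    (h : ∀ j ∈ s, Nm M t (c j) (x j)) : Nm M t (∑ j ∈ s, c j) (∑ j ∈ s, x j) := by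
  classical
  induction s using Finset.induction_on with
  | empty => simpa using Nm.zero 0
  | insert j s hj ih =>
    rw [Finset.sum_insert hj, Finset.sum_insert hj]
    exact (h j (Finset.mem_insert_self _ _)).plus
      (ih fun i hi => h i (Finset.mem_insert_of_mem hi))

/-- Lifting along a map that is onto in the small degree. -/
lemma Nm.lift {x : M'.obj S} (h : Nm M' t n x) (φ : Hom M M')
    (hφ : Function.Surjective (φ.app (Fin (t + 1)))) : ∃ y, Nm M t n y ∧ φ.app S y = x := by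
  induction h with
  | zero n => exact ⟨0, Nm.zero n, map_zero _⟩
  | add h1 _ ih =>
    obtain ⟨y, hy, rfl⟩ := ih
    obtain ⟨σ, z, rfl⟩ := h1
    obtain ⟨z, rfl⟩ := hφ z
    exact ⟨M.map σ z + y, Nm.add ⟨σ, z, rfl⟩ hy, by rw [map_add, φ.nat]⟩

lemma FG.of_surj (h : FG M) (φ : Hom M M')
    (hφ : ∀ (S : Type) [Fn S], Function.Surjective (φ.app S)) : FG M' := by
  obtain ⟨h1, t, h2⟩ := h
  refine ⟨fun S _ => Finite.of_surjective _ (hφ S), t, fun S _ x => ?_⟩
  obtain ⟨y, rfl⟩ := hφ S x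
  obtain ⟨n, hn⟩ := h2 S y
  exact ⟨n, hn.hom φ⟩

lemma Sub.ses (N : Sub M) : SES N.incl N.mkQ :=
  ⟨fun _ _ => Subtype.val_injective, N.mkQ_surj, fun S _ x => by
    rw [N.mkQ_eq_zero]
    exact ⟨fun h => ⟨⟨x, h⟩, rfl⟩, fun ⟨y, hy⟩ => hy ▸ y.2⟩⟩

lemma Hom.ses_ker (φ : Hom M M') (hφ : ∀ (S : Type) [Fn S], Function.Surjective (φ.app S)) :
    SES φ.ker.incl φ :=
  ⟨fun _ _ => Subtype.val_injective, hφ, fun _ _ x =>
    ⟨fun h => ⟨⟨x, h⟩, rfl⟩, fun ⟨y, hy⟩ => hy ▸ y.2⟩⟩

/-- Factoring through a surjection. -/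
lemma exists_hom_of_ker_le {E M₁ M₂ : Mod R} (φ₁ : Hom E M₁) (φ₂ : Hom E M₂)
    (h1 : ∀ (S : Type) [Fn S], Function.Surjective (φ₁.app S))
    (h2 : ∀ (S : Type) [Fn S] (x : E.obj S), φ₁.app S x = 0 → φ₂.app S x = 0) :
    ∃ ψ : Hom M₁ M₂, ∀ (S : Type) [Fn S] (x : E.obj S), ψ.app S (φ₁.app S x) = φ₂.app S x := by
  have key : ∀ (S : Type) [Fn S], ∃ g : M₁.obj S →ₗ[R] M₂.obj S,
      ∀ x, g (φ₁.app S x) = φ₂.app S x := fun S _ =>
    ⟨((LinearMap.ker (φ₁.app S)).liftQ (φ₂.app S) fun x hx => h2 S x hx).comp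
      ((φ₁.app S).quotKerEquivOfSurjective (h1 S)).symm.toLinearMap, fun x => by
        simp only [LinearMap.comp_apply, LinearEquiv.coe_coe,
          LinearMap.quotKerEquivOfSurjective_symm_apply]
        exact Submodule.liftQ_apply _ _ _⟩
  choose g hg using key
  refine ⟨⟨g, fun {S T} _ _ σ y => ?_⟩, hg⟩
  obtain ⟨x, rfl⟩ := h1 S y
  rw [← φ₁.nat, hg, hg, φ₂.nat]

/-- Factoring through an injection. -/
lemma exists_hom_of_range_le {E N M : Mod R} (i : Hom N M) (φ : Hom E M)
    (h1 : ∀ (S : Type) [Fn S], Function.Injective (i.app S))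
    (h2 : ∀ (S : Type) [Fn S] (x : E.obj S), ∃ y, i.app S y = φ.app S x) :
    ∃ ψ : Hom E N, ∀ (S : Type) [Fn S] (x : E.obj S), i.app S (ψ.app S x) = φ.app S x := by
  choose g hg using h2
  refine ⟨⟨fun S _ => ⟨⟨g S, fun x y => h1 S ?_⟩, fun c x => h1 S ?_⟩,
    fun {S T} _ _ σ x => h1 T ?_⟩, hg⟩
  · simp only [map_add, hg]
  · simp only [map_smul, hg, RingHom.id_apply]
  · simp only [LinearMap.coe_mk, AddHom.coe_mk, i.nat, hg, φ.nat]

lemma small_single {ι A : Type} [Fn A] (hA : Nat.card A ≤ t + 1) (p : ι × (S → A)) (c : R) :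
    Small (Fr R ι A) t (Finsupp.single p c) := by
  have := small_map_of_card (M := Fr R ι A) hA p.2 (Finsupp.single (p.1, id) c)
  rwa [Fr_map_single] at this

lemma nm_support {ι A : Type} [Fn A] (hA : Nat.card A ≤ t + 1) (x : (Fr R ι A).obj S) :
    Nm (Fr R ι A) t x.support.card x := by
  have := Nm.sum (M := Fr R ι A) (t := t) x.support (fun p => Finsupp.single p (x p)) (fun _ => 1)
    fun p _ => (small_single hA p _).nm
  rw [Finset.sum_const, smul_eq_mul, mul_one] at this
  convert this using 1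
  exact (Finsupp.sum_single x).symm

lemma Small.card_support {ι A : Type} [Finite ι] [Finite A] {x : (Fr R ι A).obj S}
    (h : Small (Fr R ι A) t x) : x.support.card ≤ Nat.card (ι × (Fin (t + 1) → A)) := by
  classical
  obtain ⟨σ, y, rfl⟩ := h
  have : Fintype (ι × (Fin (t + 1) → A)) := Fintype.ofFinite _
  refine (Finset.card_le_card Finsupp.mapDomain_support).trans (Finset.card_image_le.trans ?_)
  rw [Nat.card_eq_fintype_card]
  exact Finset.card_le_univ _

lemma Nm.card_support {ι A : Type} [Finite ι] [Finite A] {x : (Fr R ι A).obj S}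
    (h : Nm (Fr R ι A) t n x) : x.support.card ≤ Nat.card (ι × (Fin (t + 1) → A)) * n := by
  classical
  induction h with
  | zero n => simp
  | add h1 _ ih =>
    refine (Finset.card_le_card Finsupp.support_add).trans ((Finset.card_union_le _ _).trans ?_)
    rw [mul_add, mul_one, add_comm]
    exact add_le_add ih h1.card_support

lemma fg_Fr [Finite R] (ι A : Type) [Finite ι] [Fn A] : FG (Fr R ι A) :=
  ⟨fun _ _ => Finite.of_injective _ (DFunLike.coe_injective (F := _ →₀ R)),
    Nat.card A, fun _ _ x => ⟨_, nm_support (Nat.le_succ _) x⟩⟩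

lemma proj_Fr (ι A : Type) [Fn A] : Proj (Fr R ι A) := by
  intro E M φ ψ h
  choose u hu using fun i : ι => h A (Finsupp.single (i, id) 1)
  refine ⟨Fr.lift u, fun S _ x => ?_⟩
  induction x using Finsupp.induction_linear with
  | zero => simp only [map_zero]
  | add x y hx hy => simp only [map_add, hx, hy]
  | single p c =>
    rw [Fr.lift_single, map_smul, φ.nat, hu, ← ψ.nat, ← map_smul, Fr_map_single,
      Finsupp.smul_single, smul_eq_mul, mul_one]
    rfl

/-- A finitely generated functor is a quotient of a free one. -/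
lemma FG.exists_cover (h : FG M) : ∃ (ι : Type) (_ : Finite ι) (t : ℕ)
    (π : Hom (Fr R ι (Fin (t + 1))) M), ∀ (S : Type) [Fn S], Function.Surjective (π.app S) := by
  obtain ⟨h1, t, h2⟩ := h
  refine ⟨M.obj (Fin (t + 1)), h1 _, t, Fr.lift id, fun S _ x => ?_⟩
  obtain ⟨n, hn⟩ := h2 S x
  obtain ⟨y, -, hy⟩ := hn.lift (Fr.lift (ι := M.obj (Fin (t + 1))) id) fun z =>
    ⟨Finsupp.single (z, id) 1, by rw [Fr.lift_single, one_smul, M.map_id]; rfl⟩
  exact ⟨y, hy⟩

end API

end Pool.Agent.MP_6fd87c_lc.H38
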