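import Pool.Agent.MP_6fd87c_lc.H38.Lin
import Pool.Agent.MP_6fd87c_lc.H6.Calc

/-! Statements of the steps in the proof that few subpowers imply short pp-definitions. -/

namespace Pool.Agent.MP_6fd87c_lc.H38

open Pool.Agent.MP_6fd87c_lc.H6

/-! ### The problem -/

/-- `Γ` has few subpowers. -/
def Few {A : Type} (Γ : Lang A) : Prop :=
  ∃ q : Polynomial ℕ, ∀ n : ℕ, {R : Set (Fin n → A) | PPDefinable Γ R}.ncard ≤ 2 ^ q.eval n

/-- `Δ` is pp-interpretable in `Γ`. -/
def PPInterp {A B : Type} (Δ : Lang B) (Γ : Lang A) : Prop :=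
  ∃ (d : ℕ) (D : Set (Fin d → A)) (h : D → B), 1 ≤ d ∧ Function.Surjective h ∧
    PPDefinable Γ D ∧
    PPDefinable Γ {x : Fin d ⊕ Fin d → A | ∃ (hu : (fun l => x (Sum.inl l)) ∈ D)
      (hv : (fun l => x (Sum.inr l)) ∈ D), h ⟨_, hu⟩ = h ⟨_, hv⟩} ∧
    ∀ i : Fin Δ.num, PPDefinable Γ {x : Fin (Δ.ar i) × Fin d → A |
      ∃ hx : ∀ j, (fun l => x (j, l)) ∈ D, (fun j => h ⟨_, hx j⟩) ∈ Δ.rel i}

/-! ### The non-linear part -/

/-- A variant of the edge and parallelogram identities. -/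
structure IsQ {T : Type} {n : ℕ} (Q : T → T → T → (Fin n → T) → T) : Prop where
  q0 : ∀ x y, Q x x y (fun _ => y) = y
  q1 : ∀ x y z (i : Fin n), Q x x y (Function.update (fun _ => y) i z) = y
  q2 : ∀ x y, Q y x x (fun _ => y) = y

/-- `Γ` has a polymorphism satisfying `IsQ`. -/
def HasQ {A : Type} (Γ : Lang A) : Prop :=
  ∃ (n : ℕ) (f : (Fin 3 ⊕ Fin n → A) → A), IsPol Γ f ∧
    IsQ fun a b c (r : Fin n → A) => f (Sum.elim ![a, b, c] r)

/-- The local to global property of a family `C` of sets of functions `A ^ S → B`. -/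
def LG {A B : Type} (C : ∀ S : Type, Set ((S → A) → B)) : Prop :=
  ∃ t d : ℕ, ∀ (S : Type) [Finite S] [Nonempty S] (X : Finset (S → A)),
    ∃ Y : Finset (S → A), X ⊆ Y ∧ Y.card ≤ (Nat.card S + X.card + 2) ^ d ∧
      ∀ G : (S → A) → B, (∀ U ⊆ Y, U.card ≤ t → ∃ f ∈ C S, ∀ w ∈ U, f w = G w) →
        ∃ f ∈ C S, ∀ w ∈ X, f w = G w

/-- Closure under taking minors. -/
def Minor {A B : Type} (C : ∀ S : Type, Set ((S → A) → B)) : Prop :=
  ∀ (S S' : Type) (σ : S → S'), ∀ f ∈ C S, (fun v : S' → A => f (v ∘ σ)) ∈ C S'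

/-- Clonoids into finite abelian groups have the local to global property. -/
def LinLG : Prop :=
  ∀ (A L : Type) [Finite A] [Nonempty A] [AddCommGroup L] [Finite L]
    (K : ∀ S : Type, AddSubgroup ((S → A) → L)),
    Minor (fun S => (K S : Set ((S → A) → L))) → LG fun S => (K S : Set ((S → A) → L))

/-- Clonoids into finite algebras with an operation `Q` have the local to global property. -/
def EdgeLG : Prop :=
  ∀ (A B : Type) [Finite A] [Finite B] (n : ℕ) (Q : B → B → B → (Fin n → B) → B), IsQ Q →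
    ∀ C : ∀ S : Type, Set ((S → A) → B), Minor C →
      (∀ (S : Type), ∀ a ∈ C S, ∀ b ∈ C S, ∀ c ∈ C S, ∀ r : Fin n → (S → A) → B,
        (∀ i, r i ∈ C S) → (fun w => Q (a w) (b w) (c w) fun i => r i w) ∈ C S) → LG C

/-- A congruence of `(D, Q)`. -/
structure IsCong {D : Type} {n : ℕ} (Q : D → D → D → (Fin n → D) → D) (μ : D → D → Prop) :
    Prop where
  eqv : Equivalence μ
  compat : ∀ a a' b b' c c' (r r' : Fin n → D), μ a a' → μ b b' → μ c c' →
    (∀ i, μ (r i) (r' i)) → μ (Q a b c r) (Q a' b' c' r')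

/-- The blocks of `μ` are abelian groups for `m x y z = Q x y z (z, ..., z)`. -/
structure Aff {D : Type} {n : ℕ} (Q : D → D → D → (Fin n → D) → D) (μ : D → D → Prop) :
    Prop where
  mal : ∀ x y, μ x y → Q x y y (fun _ => y) = x
  comm : ∀ e x y, μ x e → μ y e → Q x e y (fun _ => y) = Q y e x fun _ => x
  assoc : ∀ e x y z, μ x e → μ y e → μ z e →
    Q (Q x e y fun _ => y) e z (fun _ => z) = Q x e (Q y e z fun _ => z) fun _ => Q y e z fun _ => z
  inv : ∀ e x, μ x e → Q x e (Q e x e fun _ => e) (fun _ => Q e x e fun _ => e) = e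

/-- A large minimal failure of the local to global property forces a minimal congruence to be
affine. -/
def SCore : Prop :=
  ∀ (D E X : Type) [Finite D] [Finite E] [Finite X] (n : ℕ)
    (Q : D → D → D → (Fin n → D) → D) (P : E → E → E → (Fin n → E) → E), IsQ Q → IsQ P →
    ∀ μ : D → D → Prop, IsCong Q μ →
      (∀ τ : D → D → Prop, IsCong Q τ → (∀ a b, τ a b → μ a b) →
        (∀ a b, τ a b → a = b) ∨ ∀ a b, μ a b → τ a b) →
      n + 3 ≤ Nat.card X → ∀ R : Set ((X → D) × E),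
        (∀ a ∈ R, ∀ b ∈ R, ∀ c ∈ R, ∀ r : Fin n → (X → D) × E, (∀ i, r i ∈ R) →
          ((fun x => Q (a.1 x) (b.1 x) (c.1 x) fun i => (r i).1 x),
            P a.2 b.2 c.2 fun i => (r i).2) ∈ R) →
        (∀ x d, ∃ u ∈ R, u.1 x = d) → ∀ g : (X → D) × E, g ∉ R →
        (∀ x, ∃ u ∈ R, u.2 = g.2 ∧ μ (u.1 x) (g.1 x) ∧ ∀ y, y ≠ x → u.1 y = g.1 y) → Aff Q μ

def SEdge : Prop := SCore → LinLG → EdgeLG

def SShortFew : Prop := ∀ (A : Type) [Finite A] (Γ : Lang A), Short Γ → Few Γ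

def SFewQ : Prop := ∀ (A : Type) [Finite A] (Γ : Lang A), Few Γ → HasQ Γ

def SInterpQ : Prop :=
  ∀ (A B : Type) (Γ : Lang A) (Δ : Lang B), PPInterp Δ Γ → HasQ Γ → HasQ Δ

def SQShort : Prop := EdgeLG → ∀ (A : Type) [Finite A] (Γ : Lang A), HasQ Γ → Short Γ

/-! ### The linear part -/

/-- Extensions, kernels, and independence of the presentation. -/
def SGood : Prop :=
  ∀ (R : Type) [CommRing R],
    (∀ (N E M : Mod R) (i : Hom N E) (φ : Hom E M), SES i φ → GoodInf N → GoodInf M → GoodInf E) ∧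
    (∀ (N E M : Mod R) (i : Hom N E) (φ : Hom E M), SES i φ → GoodInf E → GoodInf M → GoodInf N) ∧
    (∀ (N E M : Mod R) (i : Hom N E) (φ : Hom E M), SES i φ → Good 1 M → Und i) ∧
    ∀ M : Mod R, (∀ (S : Type) [Fn S] (x : M.obj S), x = 0) → GoodInf M

/-- Finitely generated functors are noetherian. -/
def SNoeth : Prop :=
  ∀ (R : Type) [CommRing R] [Finite R] (M : Mod R), FG M →
    (∀ N : Sub M, FG N.toMod) ∧ WellFoundedGT (Sub M)

open Classical in
/-- `N` is graded by the kernel of the colouring of a word induced by `π`. -/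
def Graded {R : Type} [CommRing R] {ι A J : Type} (π : ι → A → J) (N : Sub (Fr R ι A)) : Prop :=
  ∀ (S : Type) [Fn S] (Φ : (S → S → Prop) → Prop) (x : (ι × (S → A)) →₀ R), x ∈ N.s S →
    x.filter (fun p => Φ fun s s' => π p.1 (p.2 s) = π p.1 (p.2 s')) ∈ N.s S

open Classical in
/-- The product of the operators `1 - E l`, where `E l` replaces the coordinate `l` by a copy of
the coordinate `ref l`. -/
noncomputable def alph {R : Type} [CommRing R] (M : Mod R) {S : Type} [Fn S] (ref : S → S) :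
    List S → M.obj S → M.obj S
  | [], x => x
  | l :: T, x => alph M ref T x - M.map (Function.update id l (ref l)) (alph M ref T x)

/-- Graded subquotients of free functors that are polynomial along the blocks are good. -/
def SSp : Prop :=
  ∀ (R : Type) [CommRing R] [Finite R] (ι A J : Type) [Finite ι] [Fn A] [Finite J]
    (π : ι → A → J) (e : ℕ) (N₀ N₁ : Sub (Fr R ι A)), Graded π N₀ → Graded π N₁ →
    (∀ (S : Type) [Fn S] (ref : S → S) (T : List S) (p : ι × (S → A)), T.length = e → T.Nodup →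
      (∀ l ∈ T, ref l ∉ T ∧ π p.1 (p.2 l) = π p.1 (p.2 (ref l))) →
      alph (Fr R ι A) ref T (Finsupp.single p 1) ∈ N₀.s S) →
    ∀ (M : Mod R) (φ : Hom N₁.toMod M), (∀ (S : Type) [Fn S], Function.Surjective (φ.app S)) →
      (∀ (S : Type) [Fn S] (x : N₁.s S), φ.app S x = 0 ↔ x.1 ∈ N₀.s S) → GoodInf M

/-- Every finitely generated functor is good. -/
def SAll : Prop := ∀ (R : Type) [CommRing R] [Finite R] (M : Mod R), FG M → GoodInf M

def SLin : Prop := SGood → SAll → LinLG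

end Pool.Agent.MP_6fd87c_lc.H38
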